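import Pool.Agent.H93.CC.CovLow

/-!
# One instance of Chang's Conjecture and the covering number for countable sets

`Chang κ l μ ν` is the instance `(κ, l) ↠ (μ, ν)` of Chang's Conjecture. If `μ` has countable cofinality and
`(μ⁺, μ) ↠ (ν⁺, ν)` for one infinite `ν < μ`, then `cov(μ, μ, ℵ₁, 2) = μ⁺`: the least number of subsets of `μ` of size `< μ`
such that every countable subset of `μ` is contained in one of them is exactly `μ⁺`.
-/

set_option autoImplicit false

open Cardinal Order

namespace Pool.Agent.Results.MP_026a7e_lc.CoveringNumber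

open Pool.Agent.H93.CC

theorem result (μ ν : Cardinal.{0}) (hν : ℵ₀ ≤ ν) (hνμ : ν < μ) (hcof : μ.ord.cof = ℵ₀)
    (hCh : Chang (succ μ) μ (succ ν) ν) : IsLeast (Covers μ) (succ μ) :=
  cov_exact hν hνμ hcof hCh

end Pool.Agent.Results.MP_026a7e_lc.CoveringNumber
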