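import Pool.Agent.H93.CC.CovAll

/-!
# The global Chang's Conjecture implies Shelah's Strong Hypothesis and the Singular Cardinals Hypothesis

`Chang κ l μ ν` is the instance `(κ, l) ↠ (μ, ν)` of Chang's Conjecture and `GlobalChang` the statement `S` of the problem.
If `μ` has countable cofinality and `(μ⁺, μ) ↠ (ν⁺, ν)` for one infinite `ν < μ`, then `μ ^ ℵ₀ = μ⁺` as soon as
`λ ^ ℵ₀ ≤ μ⁺` for `λ < μ`. `S` implies that every uncountable `μ` of countable cofinality has such a `ν` (`OneEach`), and this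
implies that for all infinite `θ < λ` the cofinality of the subsets of `λ` of size `≤ θ` is `λ⁺` or `λ` (the Strong Hypothesis
in covering form), and that all infinite powers are as small as possible, the Singular Cardinals Hypothesis.
-/

set_option autoImplicit false

open Cardinal Order

namespace Pool.Agent.Results.MP_026a7e_lc.SingularCardinals

open Pool.Agent.H93.CC

theorem result :
    (∀ μ ν : Cardinal.{0}, ℵ₀ ≤ ν → ν < μ → μ.ord.cof = ℵ₀ → Chang (succ μ) μ (succ ν) ν →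
      (∀ l < μ, l ^ (ℵ₀ : Cardinal.{0}) ≤ succ μ) → μ ^ (ℵ₀ : Cardinal.{0}) = succ μ) ∧
    (GlobalChang → OneEach) ∧
    (OneEach →
      (∀ θ l : Cardinal.{0}, ℵ₀ ≤ θ → θ < l → IsLeast (CofSizes θ l) (if l.ord.cof ≤ θ then succ l else l)) ∧
      (∀ κ θ : Cardinal.{0}, ℵ₀ ≤ κ → ℵ₀ ≤ θ → κ ^ θ = max (2 ^ θ) (if κ.ord.cof ≤ θ then succ κ else κ)) ∧
      ∀ κ : Cardinal.{0}, κ.IsStrongLimit → κ.ord.cof < κ → 2 ^ κ = succ κ) :=
  ⟨fun _ _ hν hνμ hcof hCh => one_count hν hνμ hcof hCh, one_each,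
    fun h => ⟨fun _ _ hθ hl => sizes_exact h hθ hl, fun _ _ hκ hθ => pow_exact h hκ hθ, fun _ hκ hs => sch h hκ hs⟩⟩

end Pool.Agent.Results.MP_026a7e_lc.SingularCardinals
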