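import Pool.Agent.H93.CC.Strong

/-!
# The global Chang's Conjecture is equivalent to its strong form

`Chang κ l μ ν` is the instance `(κ, l) ↠ (μ, ν)` of Chang's Conjecture and `GlobalChang` the statement `S` of the problem.
In the strong form of an instance the language may have `ν` symbols and the elementary substructure contains a given subset
of size `≤ ν`. If every uncountable `μ` of countable cofinality has one instance `(μ⁺, μ) ↠ (ν⁺, ν)` with `ν < μ` infinite
(`OneEach`), in particular under `S`, every instance `(μ⁺, μ) ↠ (ν⁺, ν)` with `μ` of countable cofinality is equivalent to its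
strong form. So `S` is equivalent to the strong form of `S`.
-/

set_option autoImplicit false

open Cardinal Order

namespace Pool.Agent.Results.MP_026a7e_lc.StrongForm

open Pool.Agent.H93.CC

theorem result :
    (OneEach → ∀ μ ν : Cardinal.{0}, ℵ₀ ≤ ν → ν < μ → μ.ord.cof = ℵ₀ →
      (Chang (succ μ) μ (succ ν) ν ↔ StrongChang (succ μ) μ (succ ν) ν)) ∧
    (GlobalChang ↔ GlobalStrong) :=
  ⟨fun h _ _ hν hνμ hcof => ⟨strong_of_each h hν hνμ hcof, chang_of_strong hν⟩, global_strong⟩

end Pool.Agent.Results.MP_026a7e_lc.StrongForm
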