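import Pool.Agent.H93.CC.ChainMain

/-!
# The targets of instances of Chang's Conjecture and chains in the functions from `ℕ` to `ℕ`

`Chang κ l μ ν` is the instance `(κ, l) ↠ (μ, ν)` of Chang's Conjecture and `GlobalChang` the statement `S` of the problem. An
instance `(μ⁺, μ) ↠ (ν⁺, ν)` with `μ` of countable cofinality and `ν` countable subsets of `ν` that cover all of them gives a
sequence of length `ν⁺` in `ω^ω` which is strictly increasing modulo finite sets. Under `S`, if there is no such sequence, the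
instance `(μ⁺, μ) ↠ (ν⁺, ν)` holds if and only if `ν` has countable cofinality.
-/

set_option autoImplicit false

open Cardinal Order

namespace Pool.Agent.Results.MP_026a7e_lc.TargetChains

open Pool.Agent.H93.CC

theorem result :
    (∀ μ ν : Cardinal.{0}, ℵ₀ ≤ ν → ν < μ → μ.ord.cof = ℵ₀ → Chang (succ μ) μ (succ ν) ν → SmallCof ν →
      HasChain (succ ν)) ∧
    (GlobalChang → ∀ μ ν : Cardinal.{0}, ℵ₀ ≤ ν → ν < μ → μ.ord.cof = ℵ₀ → ¬ HasChain (succ ν) →
      (Chang (succ μ) μ (succ ν) ν ↔ ν.ord.cof = ℵ₀)) :=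
  ⟨fun _ _ hν hνμ hcof hCh hs => chain_local hν hνμ hcof hCh hs,
    fun h _ _ hν hνμ hcof hno => chain_iff h hν hνμ hcof hno⟩

end Pool.Agent.Results.MP_026a7e_lc.TargetChains
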